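import Mathlib
import Pool.Agent.Y281.NI.Main

/-!
# Adding a large Hilbert space to any real Banach space destroys numerical index one

Let `Y` be any real Banach space, `D` a dense subset of `Y` and `Γ` an infinite set with more than
`2 ^ |D|` elements. Then no equivalent norm on `Y × ℓ²(Γ)` has numerical index one; in every
equivalent norm there is even an operator of rank one whose numerical radius is smaller than its
norm. The space `Y × ℓ²(Γ)` contains `Y` isometrically and norm-one-complemented, and sets `Γ` of
this size exist for every `Y`; so no real Banach space `Y` whatsoever, in particular no infinite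
dimensional one that can be renormed with numerical index one, forces the spaces containing it to
be renormable with numerical index one.

Sketch of the proof. Suppose that all operators of rank one have numerical radius equal to their
norm in a space `E` isomorphic to `Y × H`, `H = ℓ²(Γ)`. For each `γ` choose a slice `S γ` of the
unit ball whose image in `H` has small diameter and large `γ`-th coordinate. The set of points of
`D` close to the `Y`-component of `S γ` takes at most `2 ^ |D|` values, so it is the same for
infinitely many `γ`; from these choose `γ 0, γ 1, ...` for which the centres are
`u + κ 0, u + κ 1, ...` with almost orthogonal `κ n`. For a functional `f` nearly norming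
`x = ∑ (n + 1) ^ (-1/2) κ n` and of modulus nearly one at points `z n` of `S (γ n)` one can
exchange: a point with the `Y`-component of `z n` and the `H`-component of the slice `S (γ m)` is
again in the unit ball, so the numbers `f (κ n)` take only two values, the largest and the
smallest. A square summable vector with two values has a bounded pairing with
`(n + 1) ^ (-1/2)`, whereas the norm of `x` is unbounded.
-/

set_option autoImplicit false

namespace Pool.Agent.Results.MP_aef148_an.EverySpace

open Pool.Agent.Helper359.NI (numRadius numIndex numRadius_nonneg)
open Pool.Agent.Y281.NI (not_rankOne RankOne)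

/-- Let `Y` be a real Banach space, `D` a dense subset of `Y` and `Γ` an infinite set whose
cardinality is larger than that of the power set of `D`. Then for every equivalent norm on
`Y × ℓ²(Γ)` there is an operator of rank one and norm one whose numerical radius is less than
one; in particular the numerical index is less than one. -/
theorem result (Y : Type) [NormedAddCommGroup Y] [NormedSpace ℝ Y] [CompleteSpace Y]
    (D : Set Y) (hD : Dense D) (Γ : Type) (hinf : Infinite Γ)
    (hΓ : Cardinal.mk (Set D) < Cardinal.mk Γ)
    (E : Type) [NormedAddCommGroup E] [NormedSpace ℝ E]
    (he : Nonempty ((Y × lp (fun _ : Γ => ℝ) 2) ≃L[ℝ] E)) :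
    ∃ (g : E →L[ℝ] ℝ) (v : E), ‖g.smulRight v‖ = 1 ∧
      numIndex ℝ E ≤ numRadius ℝ (g.smulRight v) ∧ numRadius ℝ (g.smulRight v) < 1 := by
  obtain ⟨e⟩ := he
  have h := not_rankOne Y D hD Γ hΓ E e
  unfold RankOne at h
  push Not at h
  obtain ⟨g, v, h1, h2⟩ := h
  refine ⟨g, v, h1, ?_, h2⟩
  apply csInf_le
  · refine ⟨0, ?_⟩
    rintro r ⟨S, -, rfl⟩
    exact numRadius_nonneg S
  · exact ⟨_, h1, rfl⟩

end Pool.Agent.Results.MP_aef148_an.EverySpace
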